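import Pool.Agent.Helper53.MR.Reduce

set_option autoImplicit false
open Filter Topology

namespace Pool.Agent.Results.MP_48dd86_gt.CountablyManyGoodPieces

/-- Let `X` be a normal space embedded in some `c_0(Γ)` with the pointwise topology, `f : X → Y` a
perfect surjection, and `Z j` countably many subsets of `X` such that for each `j` either

* between `V ∩ Z j` and `V` there is an `F_σ`-set of `X`, for every open `V`, or
* `f` is locally constant on `Z j`.

Then there is a continuous map `g` of `Y` into some `c_0(Γ')` with the pointwise topology which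
induces the neighbourhoods of every point `y` whose fibre is covered by the `Z j`; if the `Z j`
cover `X`, then `g` is an embedding. -/
theorem result (X Y : Type) [TopologicalSpace X] [TopologicalSpace Y] [NormalSpace X]
    (hX : ∃ (Γ : Type) (e : X → (Γ → ℝ)),
      Topology.IsEmbedding e ∧ ∀ x, Tendsto (e x) cofinite (𝓝 0))
    (f : X → Y) (hf : IsProperMap f) (hs : Function.Surjective f)
    (Z : ℕ → Set X)
    (hZ : ∀ j,
      (∀ V : Set X, IsOpen V → ∃ F : ℕ → Set X,
        (∀ i, IsClosed (F i)) ∧ (∀ i, F i ⊆ V) ∧ V ∩ Z j ⊆ ⋃ i, F i) ∨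
      (∀ z ∈ Z j, ∃ W ∈ 𝓝 z, ∀ w ∈ W ∩ Z j, f w = f z)) :
    ∃ (Γ' : Type) (g : Y → (Γ' → ℝ)), Continuous g ∧
      (∀ y, Tendsto (g y) cofinite (𝓝 0)) ∧
      (∀ y, f ⁻¹' {y} ⊆ ⋃ j, Z j → 𝓝 y = comap g (𝓝 (g y))) ∧
      ((⋃ j, Z j) = Set.univ → Topology.IsEmbedding g) := by
  obtain ⟨Γ, e, he, h0⟩ := hX
  exact Pool.Agent.Helper53.MR.pieces_X e he h0 f hf hs Z hZ

end Pool.Agent.Results.MP_48dd86_gt.CountablyManyGoodPieces
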