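import Pool.Agent.Helper53.MR.Expand

set_option autoImplicit false
open Filter Topology

namespace Pool.Agent.Results.MP_48dd86_gt.CountablyParacompact

/-- Countable metacompactness: every countable open cover has a point-finite open refinement (for
normal spaces this is the same as countable paracompactness). -/
def CountablyMetacompact (Z : Type) [TopologicalSpace Z] : Prop :=
  ∀ U : ℕ → Set Z, (∀ n, IsOpen (U n)) → (⋃ n, U n) = Set.univ →
    ∃ V : ℕ → Set Z, (∀ n, IsOpen (V n)) ∧ (∀ n, V n ⊆ U n) ∧ (⋃ n, V n) = Set.univ ∧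
      ∀ z, {n | z ∈ V n}.Finite

/-- Let `X` embed in some `c_0(Γ)` with the pointwise topology and let `f : X → Y` be a perfect
surjection. If `X` is normal and countably metacompact, or if `Y` is `T_1`, normal and countably
metacompact, then `Y` embeds in some `c_0(Γ')` with the pointwise topology. -/
theorem result (X Y : Type) [TopologicalSpace X] [TopologicalSpace Y]
    (hX : ∃ (Γ : Type) (e : X → (Γ → ℝ)),
      Topology.IsEmbedding e ∧ ∀ x, Tendsto (e x) cofinite (𝓝 0))
    (f : X → Y) (hf : IsProperMap f) (hs : Function.Surjective f)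
    (h : (NormalSpace X ∧ CountablyMetacompact X) ∨
      (T1Space Y ∧ NormalSpace Y ∧ CountablyMetacompact Y)) :
    ∃ (Γ' : Type) (g : Y → (Γ' → ℝ)), Topology.IsEmbedding g ∧
      ∀ y, Tendsto (g y) cofinite (𝓝 0) := by
  obtain ⟨Γ, e, he, h0⟩ := hX
  rcases h with ⟨h1, h2⟩ | ⟨h1, h2, h3⟩
  · have : T2Space X := he.t2Space
    have : NormalSpace Y :=
      Pool.Agent.Helper53.MR.normal_of_closed hf.continuous hf.isClosedMap hs
    have : T1Space Y := Pool.Agent.Helper53.MR.t1_of_closed hf.isClosedMap hs
    exact Pool.Agent.Helper53.MR.cpar_embeds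
      ((Pool.Agent.Helper53.MR.cpar_of_countablyMetacompact h2).image hf.continuous
        hf.isClosedMap hs) e he h0 f hf hs
  · exact Pool.Agent.Helper53.MR.cpar_embeds
      (Pool.Agent.Helper53.MR.cpar_of_countablyMetacompact h3) e he h0 f hf hs

end Pool.Agent.Results.MP_48dd86_gt.CountablyParacompact
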